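import Mathlib

/-!
The Winfree model: the pathwise critical coupling strength of a single initial datum is not bounded
by any multiple of the largest natural frequency, although the critical coupling strength is.

Take one oscillator with natural frequency `1` and all the others with natural frequency `0`, the
latter started at the phase `π`, where their influence `1 + cos θ` vanishes. They stay there, and the
first oscillator feels the coupling `κ / N` only, so that it rotates for ever as long as `κ < N / 2`.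
-/

set_option autoImplicit false

namespace Pool.Agent.Results.MP_4423d6_an.StrongFormFalse

open Filter Topology Set

/-- the right-hand side of the Winfree model with `N` oscillators -/
noncomputable def field {N : ℕ} (κ : ℝ) (Ω : Fin N → ℝ) (θ : Fin N → ℝ) (i : Fin N) : ℝ :=
  Ω i - κ / N * ∑ j, (1 + Real.cos (θ j)) * Real.sin (θ i)

/-- `θ` is the solution, for the times `t ≥ 0`, of the Winfree model with the initial phases `Θ₀` -/
def IsSolution {N : ℕ} (κ : ℝ) (Ω Θ₀ : Fin N → ℝ) (θ : ℝ → Fin N → ℝ) : Prop :=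
  θ 0 = Θ₀ ∧ ∀ t : ℝ, 0 ≤ t → ∀ i, HasDerivWithinAt (fun s => θ s i) (field κ Ω (θ t) i) (Ici 0) t

/-- the solution from `Θ₀` converges: every phase has a finite limit as `t → ∞` -/
def Converges {N : ℕ} (κ : ℝ) (Ω Θ₀ : Fin N → ℝ) : Prop :=
  ∃ θ : ℝ → Fin N → ℝ, IsSolution κ Ω Θ₀ θ ∧ ∀ i, ∃ l : ℝ, Tendsto (fun t => θ t i) atTop (𝓝 l)

/-- the critical coupling strength `κ_c(Ω)`, an infimum in the extended reals -/
noncomputable def kappaC {N : ℕ} (Ω : Fin N → ℝ) : EReal :=
  sInf ((fun x : ℝ => (x : EReal)) '' {κs : ℝ | 0 < κs ∧ ∀ κ : ℝ, κs < κ →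
    ∃ θ : Fin N → ℝ, ∀ i, field κ Ω θ i = 0})

/-- the pathwise critical coupling strength `κ_pc(Θ₀, Ω)`, an infimum in the extended reals -/
noncomputable def kappaPC {N : ℕ} (Θ₀ Ω : Fin N → ℝ) : EReal :=
  sInf ((fun x : ℝ => (x : EReal)) '' {κs : ℝ | 0 < κs ∧ ∀ κ : ℝ, κs < κ → Converges κ Ω Θ₀})

/-- natural frequencies `(1, 0, ..., 0)` -/
def freq (n : ℕ) : Fin (n + 1) → ℝ := fun i => if i = 0 then 1 else 0

/-- initial phases `(0, π, ..., π)` -/
noncomputable def init (n : ℕ) : Fin (n + 1) → ℝ := fun i => if i = 0 then 0 else Real.pi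

theorem stays {n : ℕ} {κ : ℝ} (hκ : 0 < κ) {θ : ℝ → Fin (n + 1) → ℝ}
    (h : IsSolution κ (freq n) (init n) θ) (i : Fin (n + 1)) (hi : i ≠ 0) (t : ℝ) (ht : 0 ≤ t) :
    θ t i = Real.pi := by
  obtain ⟨h0, hd⟩ := h
  have hN : (0 : ℝ) < ((n + 1 : ℕ) : ℝ) := by positivity
  have hb := norm_le_gronwallBound_of_norm_deriv_right_le (f := fun s => θ s i - Real.pi)
    (f' := fun s => field κ (freq n) (θ s) i) (δ := 0) (K := 2 * κ) (ε := 0) (a := 0) (b := t)
    (fun s hs => ((hd s hs.1 i).continuousWithinAt.mono Icc_subset_Ici_self).sub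
      continuousWithinAt_const)
    (fun s hs => ((hd s hs.1 i).mono (Ici_subset_Ici.2 hs.1)).sub_const _)
    (by simp [h0, init, hi])
    (fun s hs => by
      have e1 : field κ (freq n) (θ s) i =
          (κ / ((n + 1 : ℕ) : ℝ) * ∑ j, (1 + Real.cos (θ s j))) * Real.sin (θ s i - Real.pi) := by
        rw [Real.sin_sub_pi]
        unfold field
        simp only [freq, hi, if_false]
        rw [← Finset.sum_mul]
        ring
      have hs0 : 0 ≤ ∑ j, (1 + Real.cos (θ s j)) :=
        Finset.sum_nonneg fun j _ => by linarith [Real.neg_one_le_cos (θ s j)]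
      have hs1 : ∑ j, (1 + Real.cos (θ s j)) ≤ 2 * ((n + 1 : ℕ) : ℝ) := by
        calc ∑ j, (1 + Real.cos (θ s j)) ≤ ∑ _j : Fin (n + 1), (2 : ℝ) :=
              Finset.sum_le_sum fun j _ => by linarith [Real.cos_le_one (θ s j)]
          _ = 2 * ((n + 1 : ℕ) : ℝ) := by simp; ring
      have e2 : κ / ((n + 1 : ℕ) : ℝ) * ∑ j, (1 + Real.cos (θ s j)) ≤ 2 * κ := by
        rw [div_mul_eq_mul_div, div_le_iff₀ hN]
        nlinarith
      have e3 : 0 ≤ κ / ((n + 1 : ℕ) : ℝ) * ∑ j, (1 + Real.cos (θ s j)) := by positivity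
      rw [e1, norm_mul, Real.norm_eq_abs, abs_of_nonneg e3, add_zero]
      refine mul_le_mul e2 ?_ (norm_nonneg _) (by positivity)
      rw [Real.norm_eq_abs, Real.norm_eq_abs]
      exact Real.abs_sin_le_abs)
    t ⟨ht, le_rfl⟩
  rw [gronwallBound_ε0_δ0] at hb
  have := norm_le_zero_iff.1 hb
  linarith

theorem grows {n : ℕ} {κ : ℝ} (hκ : 0 < κ) {θ : ℝ → Fin (n + 1) → ℝ}
    (h : IsSolution κ (freq n) (init n) θ) (t : ℝ) (ht : 0 ≤ t) :
    (1 - 2 * κ / ((n + 1 : ℕ) : ℝ)) * t ≤ θ t 0 := by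
  have hst := stays hκ h
  obtain ⟨h0, hd⟩ := h
  have hN : (0 : ℝ) < ((n + 1 : ℕ) : ℝ) := by positivity
  set c : ℝ := 1 - 2 * κ / ((n + 1 : ℕ) : ℝ) with hc
  have hmono : MonotoneOn (fun s => θ s 0 - c * s) (Ici 0) := by
    apply monotoneOn_of_deriv_nonneg (convex_Ici 0)
    · intro s hs
      exact (hd s hs 0).continuousWithinAt.sub (by fun_prop)
    · intro s hs
      rw [interior_Ici] at hs
      have := ((hd s (le_of_lt hs) 0).hasDerivAt (Ici_mem_nhds hs))
      exact ((this.sub ((hasDerivAt_id s).const_mul c)).differentiableAt).differentiableWithinAt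
    · intro s hs
      rw [interior_Ici] at hs
      have := ((hd s (le_of_lt hs) 0).hasDerivAt (Ici_mem_nhds hs))
      have h2 := (this.sub ((hasDerivAt_id s).const_mul c)).deriv
      have h3 : deriv (fun s => θ s 0 - c * s) s = field κ (freq n) (θ s) 0 - c * 1 := h2
      rw [h3]
      have hsum : ∑ j, (1 + Real.cos (θ s j)) * Real.sin (θ s 0) =
          (1 + Real.cos (θ s 0)) * Real.sin (θ s 0) := by
        rw [Finset.sum_eq_single 0]
        · intro j _ hj
          rw [hst j hj s (le_of_lt hs)]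
          simp
        · intro h; exact absurd (Finset.mem_univ _) h
      unfold field
      rw [hsum, hc]
      simp only [freq, if_true]
      have hle : (1 + Real.cos (θ s 0)) * Real.sin (θ s 0) ≤ 2 := by
        nlinarith [Real.cos_le_one (θ s 0), Real.neg_one_le_cos (θ s 0), Real.sin_le_one (θ s 0),
          Real.neg_one_le_sin (θ s 0), Real.sin_sq_add_cos_sq (θ s 0)]
      have hk : 0 ≤ κ / ((n + 1 : ℕ) : ℝ) := by positivity
      have := mul_le_mul_of_nonneg_left hle hk
      have e : 2 * κ / ((n + 1 : ℕ) : ℝ) = κ / ((n + 1 : ℕ) : ℝ) * 2 := by ring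
      linarith
  have h1 := hmono (self_mem_Ici : (0 : ℝ) ∈ Ici 0) ht ht
  simp only [h0, init, if_true, mul_zero, sub_zero] at h1
  linarith

/-- For every real `c` there are natural frequencies `Ω` with `max |Ω i| = 1` and initial phases
`Θ₀` such that the critical coupling strength `κ_c(Ω)` is at most `1` and the pathwise critical
coupling strength `κ_pc(Θ₀, Ω)` is larger than `c`. -/
theorem result (c : ℝ) : ∃ (N : ℕ) (Ω Θ₀ : Fin N → ℝ), (∀ i, |Ω i| ≤ 1) ∧ (∃ i, |Ω i| = 1) ∧
    kappaC Ω ≤ 1 ∧ (c : EReal) < kappaPC Θ₀ Ω := by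
  obtain ⟨n, hn⟩ := exists_nat_gt (2 * |c|)
  refine ⟨n + 1, freq n, init n, ?_, ⟨0, by simp [freq]⟩, ?_, ?_⟩
  · intro i
    unfold freq
    split_ifs <;> simp
  · refine sInf_le ⟨1, ⟨one_pos, fun κ hκ => ?_⟩, by simp⟩
    have hN : (0 : ℝ) < ((n + 1 : ℕ) : ℝ) := by positivity
    have hN1 : (1 : ℝ) ≤ ((n + 1 : ℕ) : ℝ) := by push_cast; linarith [n.cast_nonneg (α := ℝ)]
    -- the function of the phase of the first oscillator
    set g : ℝ → ℝ := fun x => κ / ((n + 1 : ℕ) : ℝ) *
      ((1 + Real.cos x) + 2 * (((n + 1 : ℕ) : ℝ) - 1)) * Real.sin x with hg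
    have hgc : ContinuousOn g (Icc 0 (Real.pi / 2)) := by
      rw [hg]; fun_prop
    have g0 : g 0 = 0 := by simp [hg]
    have g1 : 1 ≤ g (Real.pi / 2) := by
      simp only [hg, Real.cos_pi_div_two, Real.sin_pi_div_two, mul_one, add_zero]
      rw [div_mul_eq_mul_div, le_div_iff₀ hN]
      nlinarith
    obtain ⟨x, -, hx⟩ := intermediate_value_Icc (by positivity) hgc
      (show (1 : ℝ) ∈ Icc (g 0) (g (Real.pi / 2)) from ⟨by rw [g0]; norm_num, g1⟩)
    refine ⟨fun i => if i = 0 then x else 0, fun i => ?_⟩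
    by_cases hi : i = 0
    · subst hi
      unfold field
      simp only [freq, if_true]
      rw [← Finset.sum_mul]
      have hs : ∑ j : Fin (n + 1), (1 + Real.cos (if j = 0 then x else 0)) =
          (1 + Real.cos x) + 2 * (((n + 1 : ℕ) : ℝ) - 1) := by
        rw [Fin.sum_univ_succ]
        simp [Fin.succ_ne_zero]
        ring
      rw [hs]
      have : κ / ((n + 1 : ℕ) : ℝ) * (((1 + Real.cos x) + 2 * (((n + 1 : ℕ) : ℝ) - 1)) *
          Real.sin x) = 1 := by
        refine Eq.trans ?_ hx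
        simp only [hg]
        ring
      linarith
    · unfold field
      simp [freq, hi]
  · refine lt_of_lt_of_le (b := ((((n + 1 : ℕ) : ℝ) / 2 : ℝ) : EReal)) ?_ ?_
    · rw [EReal.coe_lt_coe_iff]
      have := le_abs_self c
      push_cast
      linarith
    · refine le_sInf ?_
      rintro _ ⟨κs, ⟨hκs, hcon⟩, rfl⟩
      rw [EReal.coe_le_coe_iff]
      by_contra hlt
      push Not at hlt
      have hN : (0 : ℝ) < ((n + 1 : ℕ) : ℝ) := by positivity
      obtain ⟨κ, hκ1, hκ2⟩ := exists_between hlt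
      have hκ : 0 < κ := hκs.trans hκ1
      obtain ⟨θ, hsol, hlim⟩ := hcon κ hκ1
      obtain ⟨l, hl⟩ := hlim 0
      have hc : 0 < 1 - 2 * κ / ((n + 1 : ℕ) : ℝ) := by
        rw [sub_pos, div_lt_one hN]
        linarith
      have h1 : Tendsto (fun t : ℝ => (1 - 2 * κ / ((n + 1 : ℕ) : ℝ)) * t) atTop atTop :=
        tendsto_id.const_mul_atTop hc
      have h2 : Tendsto (fun t => θ t 0) atTop atTop :=
        tendsto_atTop_mono' _ (by
          filter_upwards [eventually_ge_atTop 0] with t ht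
          exact grows hκ hsol t ht) h1
      exact not_tendsto_nhds_of_tendsto_atTop h2 l hl

end Pool.Agent.Results.MP_4423d6_an.StrongFormFalse
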